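import Mathlib

set_option autoImplicit false

namespace Pool.Agent.Results.MP_738270_al.SomeSet
open Subgroup
open scoped Pointwise

variable {G : Type} [Group G]

theorem inv_rev (w : List G) : ((w.map (·⁻¹)).reverse).prod = w.prod⁻¹ := by
  rw [List.prod_inv_reverse]

theorem ex_word {X : Set G} (hX : closure X = ⊤) (g : G) :
    ∃ w : List G, (∀ x ∈ w, x ∈ X ∨ x⁻¹ ∈ X) ∧ w.prod = g := by
  have : g ∈ (closure X).toSubmonoid := by rw [hX]; trivial
  rw [closure_toSubmonoid] at this
  obtain ⟨w, h1, h2⟩ := Submonoid.exists_list_of_mem_closure this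
  exact ⟨w, h1, h2⟩

/-- values of reversed relations -/
def K (X : Set G) : Subgroup G where
  carrier := {g | ∃ w : List G, (∀ x ∈ w, x ∈ X ∨ x⁻¹ ∈ X) ∧ w.prod = 1 ∧ w.reverse.prod = g}
  one_mem' := ⟨[], by simp, rfl, rfl⟩
  mul_mem' := by
    rintro _ _ ⟨v, v1, v2, rfl⟩ ⟨w, w1, w2, rfl⟩
    exact ⟨w ++ v, fun x hx => (List.mem_append.1 hx).elim (w1 x) (v1 x), by simp [v2, w2], by simp⟩
  inv_mem' := by
    rintro _ ⟨w, w1, w2, rfl⟩
    refine ⟨(w.map (·⁻¹)).reverse, fun x hx => ?_, by rw [inv_rev, w2, inv_one], ?_⟩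
    · obtain ⟨y, hy, rfl⟩ := List.mem_map.1 (List.mem_reverse.1 hx)
      simpa [or_comm] using w1 y hy
    · rw [← inv_rev, List.map_reverse]

theorem K_normal {X : Set G} (hX : closure X = ⊤) : (K X).Normal := ⟨by
  rintro _ ⟨w, w1, w2, rfl⟩ g
  obtain ⟨u, u1, rfl⟩ := ex_word hX g
  refine ⟨u.map (·⁻¹) ++ w ++ u.reverse, fun x hx => ?_, ?_, ?_⟩
  · rcases List.mem_append.1 hx with hx | hx
    · rcases List.mem_append.1 hx with hx | hx
      · obtain ⟨y, hy, rfl⟩ := List.mem_map.1 hx
        simpa [or_comm] using u1 y hy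
      · exact w1 x hx
    · exact u1 x (List.mem_reverse.1 hx)
  · have := inv_rev u.reverse
    rw [List.map_reverse, List.reverse_reverse] at this
    simp [w2, this]
  · simp only [List.reverse_append, List.reverse_reverse, List.prod_append, inv_rev, mul_assoc]⟩

theorem result (G : Type) [Group G] [Group.FG G] :
    ∃ X : Finset G, Subgroup.closure (X : Set G) = ⊤ ∧
      ∃ N : ℕ, ∀ g : G, ∃ ps : List (List G), ps.length ≤ N ∧
        (∀ w ∈ ps, (∀ x ∈ w, x ∈ X ∨ x⁻¹ ∈ X) ∧ w.reverse = w) ∧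
        (ps.map List.prod).prod = g := by
  classical
  obtain ⟨S, hS⟩ := Group.fg_def.1 ‹_›
  have hX : closure ((S ∪ S * S : Finset G) : Set G) = ⊤ :=
    top_le_iff.1 (hS.ge.trans (closure_mono (by simp)))
  refine ⟨S ∪ S * S, hX, S.card + 1, fun g => ?_⟩
  have := K_normal hX
  set π := QuotientGroup.mk' (K ((S ∪ S * S : Finset G) : Set G))
  have hc : ∀ a ∈ S, ∀ b ∈ S, π a * π b = π b * π a := fun a ha b hb => by
    rw [← map_mul, ← map_mul]
    refine QuotientGroup.eq.2 ⟨[a, b, (a * b)⁻¹], ?_, by simp, by simp [mul_assoc]⟩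
    simp [ha, hb, Set.mul_mem_mul (Finset.mem_coe.2 ha) (Finset.mem_coe.2 hb)]
  have hc' : ∀ a b : G, π a * π b = π b * π a := fun a b => by
    have h1 : ∀ a ∈ S, ∀ b, π a * π b = π b * π a := fun a ha b => by
      have : b ∈ (centralizer {π a}).comap π :=
        (hS.ge.trans ((closure_le _).2 fun b hb => by simpa [mem_centralizer_iff] using hc a ha b hb))
          (mem_top b)
      simpa [mem_centralizer_iff] using this
    have : a ∈ (centralizer {π b}).comap π :=
      (hS.ge.trans ((closure_le _).2 fun a ha => by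
        simpa [mem_centralizer_iff] using (h1 a ha b).symm)) (mem_top a)
    simpa [mem_centralizer_iff] using Eq.symm (by simpa [mem_centralizer_iff] using this)
  let _ : CommGroup (G ⧸ K ((S ∪ S * S : Finset G) : Set G)) :=
    { (inferInstance : Group _) with
      mul_comm := fun a b => by
        obtain ⟨a, rfl⟩ := QuotientGroup.mk'_surjective _ a
        obtain ⟨b, rfl⟩ := QuotientGroup.mk'_surjective _ b
        exact hc' a b }
  obtain ⟨k, hk⟩ : ∃ k : G → ℤ, ∏ s ∈ S, π s ^ k s = π g := by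
    have hg : g ∈ closure (S : Set G) := hS ▸ mem_top g
    induction hg using closure_induction with
    | mem x hx => exact ⟨Pi.single x 1, by
        rw [Finset.prod_eq_single x (fun b _ hb => by simp [hb]) fun h => (h hx).elim]; simp⟩
    | one => exact ⟨0, by simp⟩
    | mul x y _ _ h1 h2 =>
      obtain ⟨k, h1⟩ := h1
      obtain ⟨l, h2⟩ := h2
      exact ⟨k + l, by simp only [Pi.add_apply, zpow_add, Finset.prod_mul_distrib, h1, h2, map_mul]⟩
    | inv x _ h1 =>
      obtain ⟨k, h1⟩ := h1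
      exact ⟨-k, by simp only [Pi.neg_apply, zpow_neg, Finset.prod_inv_distrib, h1, map_inv]⟩
  let pw : G → List G := fun s => List.replicate (k s).natAbs (if 0 ≤ k s then s else s⁻¹)
  have hp : ∀ s, (pw s).prod = s ^ k s := fun s => by
    simp only [pw, List.prod_replicate]
    split_ifs with h
    · rw [← zpow_natCast, Int.natAbs_of_nonneg h]
    · rw [inv_pow, ← zpow_natCast, ← zpow_neg, Int.ofNat_natAbs_of_nonpos (not_le.1 h).le, neg_neg]
  have : π ((S.toList.map fun s => s ^ k s).prod) = π g := by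
    rw [← hk, map_list_prod, List.map_map, ← Finset.prod_map_toList]
    congr 2
  obtain ⟨w, w1, w2, w3⟩ := QuotientGroup.eq.1 this
  refine ⟨S.toList.map pw ++ [w ++ w.reverse], by simp, fun v hv => ?_, ?_⟩
  · rcases List.mem_append.1 hv with hv | hv
    · obtain ⟨s, hs, rfl⟩ := List.mem_map.1 hv
      refine ⟨fun x hx => ?_, List.reverse_replicate⟩
      rw [List.eq_of_mem_replicate hx]
      split_ifs <;> simp [Finset.mem_toList.1 hs]
    · rw [List.mem_singleton.1 hv]
      refine ⟨fun x hx => ?_, by simp⟩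
      exact_mod_cast w1 x (by simpa using hx)
  · simp [List.map_map, Function.comp_def, hp, w2, w3]

end Pool.Agent.Results.MP_738270_al.SomeSet
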